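import Pool.Agent.helper64.D2.SpecR

/-!
# Project dc: (MP_5823cb_al): module RNU
-/

set_option autoImplicit false

open Filter Topology
open scoped commutatorElement

namespace Pool.Agent.helper64.D2

lemma RNU_pow_bounds (b : ℕ) (hb : 1 ≤ b) :
    (2 : ℝ) ^ 20 * (b : ℝ) ^ 84 ≤ (2 : ℝ) ^ mm b ∧ (2 : ℝ) ^ mm b ≤ 2 ^ 104 * (b : ℝ) ^ 84 ∧
      (mm b : ℝ) ≤ 104 * (b : ℝ) := by
  have hb0 : b ≠ 0 := by omega
  have h1 : 2 ^ Nat.log 2 b ≤ b := Nat.pow_log_le_self 2 hb0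
  have h2 : b < 2 ^ (Nat.log 2 b + 1) := Nat.lt_pow_succ_log_self (by norm_num) b
  have h1r : (2 : ℝ) ^ Nat.log 2 b ≤ (b : ℝ) := by exact_mod_cast h1
  have h2r : (b : ℝ) ≤ (2 : ℝ) ^ (Nat.log 2 b + 1) := by exact_mod_cast h2.le
  have hbr : (0 : ℝ) ≤ (b : ℝ) := by positivity
  have hexp : (2 : ℝ) ^ mm b = 2 ^ 20 * ((2 : ℝ) ^ (Nat.log 2 b + 1)) ^ 84 := by
    unfold mm
    rw [← pow_mul, ← pow_add]
    congr 1
    ring
  refine ⟨?_, ?_, ?_⟩
  · rw [hexp]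
    exact mul_le_mul_of_nonneg_left (pow_le_pow_left₀ hbr h2r 84) (by positivity)
  · rw [hexp]
    have h3 : (2 : ℝ) ^ (Nat.log 2 b + 1) ≤ 2 * (b : ℝ) := by
      rw [pow_succ]; linarith
    calc (2 : ℝ) ^ 20 * ((2 : ℝ) ^ (Nat.log 2 b + 1)) ^ 84 ≤ 2 ^ 20 * (2 * (b : ℝ)) ^ 84 :=
          mul_le_mul_of_nonneg_left (pow_le_pow_left₀ (by positivity) h3 84) (by positivity)
      _ = 2 ^ 104 * (b : ℝ) ^ 84 := by rw [mul_pow, ← mul_assoc, ← pow_add]
  · have h4 : Nat.log 2 b + 1 ≤ b := by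
      have : Nat.log 2 b < 2 ^ Nat.log 2 b := Nat.lt_two_pow_self
      omega
    have h5 : mm b ≤ 104 * b := by
      unfold mm
      omega
    exact_mod_cast h5

lemma RNU_step (B μ lam a β : ℝ) (hB : 2 ^ 52 ≤ B) (hβ : β = 1 / B ^ 2) (hμ0 : 0 ≤ μ)
    (hμ : μ ≤ 2 ^ 104 * B ^ 42) (hl0 : 0 ≤ lam) (hl : lam ≤ 2 / B ^ 300) (ha0 : 0 ≤ a) (ha : a ≤ 1 / 50) :
    4 * μ * lam * a ≤ 1 ∧
    (1 + 2 * (4 * μ * lam * a)) * (1 + (lam + 6 * μ * lam / β + 6 * μ ^ 2 * a * lam / β ^ 2)) +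
      6 * (4 * μ * lam * a) * (max 1 (2 * μ * a)) / β ≤ 1 + 1 / B ^ 200 := by
  have hBpos : 0 < B := lt_of_lt_of_le (by norm_num) hB
  have hB1 : 1 ≤ B := le_trans (by norm_num) hB
  have h104 : (2 : ℝ) ^ 104 ≤ B ^ 2 := by
    have := pow_le_pow_left₀ (by norm_num : (0 : ℝ) ≤ 2 ^ 52) hB 2
    calc (2 : ℝ) ^ 104 = (2 ^ 52) ^ 2 := by norm_num
      _ ≤ B ^ 2 := this
  have hμ' : μ ≤ B ^ 44 := by
    calc μ ≤ 2 ^ 104 * B ^ 42 := hμ
      _ ≤ B ^ 2 * B ^ 42 := mul_le_mul_of_nonneg_right h104 (by positivity)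
      _ = B ^ 44 := by ring
  have h16 : (1000 : ℝ) ≤ B := le_trans (by norm_num) hB
  -- eta
  have hml : μ * lam ≤ 2 / B ^ 256 := by
    calc μ * lam ≤ B ^ 44 * (2 / B ^ 300) := mul_le_mul hμ' hl hl0 (by positivity)
      _ = 2 / B ^ 256 := by field_simp
  have hml0 : 0 ≤ μ * lam := mul_nonneg hμ0 hl0
  have hη : 4 * μ * lam * a ≤ 1 / B ^ 256 := by
    calc 4 * μ * lam * a = 4 * ((μ * lam) * a) := by ring
      _ ≤ 4 * ((2 / B ^ 256) * (1 / 50)) := by
          apply mul_le_mul_of_nonneg_left _ (by norm_num)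
          exact mul_le_mul hml ha ha0 (by positivity)
      _ = (8 / 50) / B ^ 256 := by ring
      _ ≤ 1 / B ^ 256 := by
          apply div_le_div_of_nonneg_right (by norm_num) (by positivity)
  have hη0 : 0 ≤ 4 * μ * lam * a := by positivity
  have hone : (1 : ℝ) / B ^ 256 ≤ 1 := by
    rw [div_le_one (by positivity)]
    exact one_le_pow₀ hB1
  refine ⟨hη.trans hone, ?_⟩
  -- powers of 1/B
  have mono : ∀ k l : ℕ, k ≤ l → (1 : ℝ) / B ^ l ≤ 1 / B ^ k := by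
    intro k l hkl
    exact one_div_le_one_div_of_le (by positivity) (pow_le_pow_right₀ hB1 hkl)
  have hsig1 : lam ≤ 2 / B ^ 208 := by
    refine hl.trans ?_
    have := mono 208 300 (by norm_num)
    calc (2 : ℝ) / B ^ 300 = 2 * (1 / B ^ 300) := by ring
      _ ≤ 2 * (1 / B ^ 208) := by linarith
      _ = 2 / B ^ 208 := by ring
  have hsig2 : 6 * μ * lam / β ≤ 12 / B ^ 208 := by
    rw [hβ]
    have e : 6 * μ * lam / (1 / B ^ 2) = 6 * (μ * lam) * B ^ 2 := by field_simp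
    rw [e]
    calc 6 * (μ * lam) * B ^ 2 ≤ 6 * (2 / B ^ 256) * B ^ 2 := by
          apply mul_le_mul_of_nonneg_right _ (by positivity)
          linarith
      _ = 12 * (1 / B ^ 254) := by field_simp; ring
      _ ≤ 12 * (1 / B ^ 208) := by
          have := mono 208 254 (by norm_num)
          linarith
      _ = 12 / B ^ 208 := by ring
  have hsig3 : 6 * μ ^ 2 * a * lam / β ^ 2 ≤ 1 / B ^ 208 := by
    rw [hβ]
    have e : 6 * μ ^ 2 * a * lam / (1 / B ^ 2) ^ 2 = 6 * (μ * (μ * lam) * a) * B ^ 4 := by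
      field_simp
    rw [e]
    have h : μ * (μ * lam) * a ≤ B ^ 44 * (2 / B ^ 256) * (1 / 50) := by
      apply mul_le_mul _ ha ha0 (by positivity)
      exact mul_le_mul hμ' hml hml0 (by positivity)
    calc 6 * (μ * (μ * lam) * a) * B ^ 4 ≤ 6 * (B ^ 44 * (2 / B ^ 256) * (1 / 50)) * B ^ 4 := by
          apply mul_le_mul_of_nonneg_right _ (by positivity)
          linarith
      _ = (12 / 50) * (1 / B ^ 208) := by field_simp; ring
      _ ≤ 1 * (1 / B ^ 208) := by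
          apply mul_le_mul_of_nonneg_right (by norm_num) (by positivity)
      _ = 1 / B ^ 208 := one_mul _
  have hmax : max 1 (2 * μ * a) ≤ B ^ 44 := by
    apply max_le (one_le_pow₀ hB1)
    have : μ * a ≤ B ^ 44 * (1 / 50) := mul_le_mul hμ' ha ha0 (by positivity)
    have hp : 0 ≤ B ^ 44 := by positivity
    calc 2 * μ * a = 2 * (μ * a) := by ring
      _ ≤ B ^ 44 := by linarith
  have hmax0 : 0 ≤ max 1 (2 * μ * a) := le_trans zero_le_one (le_max_left _ _)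
  have hlast : 6 * (4 * μ * lam * a) * (max 1 (2 * μ * a)) / β ≤ 6 / B ^ 208 := by
    rw [hβ]
    have e : 6 * (4 * μ * lam * a) * (max 1 (2 * μ * a)) / (1 / B ^ 2) =
        6 * ((4 * μ * lam * a) * (max 1 (2 * μ * a))) * B ^ 2 := by
      field_simp
    rw [e]
    have h : (4 * μ * lam * a) * (max 1 (2 * μ * a)) ≤ 1 / B ^ 256 * B ^ 44 :=
      mul_le_mul hη hmax hmax0 (by positivity)
    calc 6 * ((4 * μ * lam * a) * (max 1 (2 * μ * a))) * B ^ 2 ≤ 6 * (1 / B ^ 256 * B ^ 44) * B ^ 2 := by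
          apply mul_le_mul_of_nonneg_right _ (by positivity)
          linarith
      _ = 6 * (1 / B ^ 210) := by field_simp
      _ ≤ 6 * (1 / B ^ 208) := by
          have := mono 208 210 (by norm_num)
          linarith
      _ = 6 / B ^ 208 := by ring
  set η := 4 * μ * lam * a with hηdef
  set σ := lam + 6 * μ * lam / β + 6 * μ ^ 2 * a * lam / β ^ 2 with hσdef
  have hβpos : 0 < β := by rw [hβ]; positivity
  have hσ0 : 0 ≤ σ := by positivity
  have hσ : σ ≤ 15 * (1 / B ^ 208) := by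
    have : σ ≤ 2 / B ^ 208 + 12 / B ^ 208 + 1 / B ^ 208 := by
      rw [hσdef]; linarith
    calc σ ≤ _ := this
      _ = 15 * (1 / B ^ 208) := by ring
  have hη' : η ≤ 1 / B ^ 208 := hη.trans (mono 208 256 (by norm_num))
  have hησ : η * σ ≤ 15 * (1 / B ^ 208) := by
    calc η * σ ≤ 1 * σ := mul_le_mul_of_nonneg_right (hη.trans hone) hσ0
      _ ≤ 15 * (1 / B ^ 208) := by linarith
  have htot : (1 + 2 * η) * (1 + σ) + 6 * η * max 1 (2 * μ * a) / β ≤ 1 + 1000 * (1 / B ^ 208) := by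
    have h0 : 0 ≤ 1 / B ^ 208 := by positivity
    have e6 : 6 / B ^ 208 = 6 * (1 / B ^ 208) := by ring
    rw [e6] at hlast
    calc (1 + 2 * η) * (1 + σ) + 6 * η * max 1 (2 * μ * a) / β
        = 1 + 2 * η + σ + 2 * (η * σ) + 6 * η * max 1 (2 * μ * a) / β := by ring
      _ ≤ 1 + 2 * (1 / B ^ 208) + 15 * (1 / B ^ 208) + 2 * (15 * (1 / B ^ 208)) + 6 * (1 / B ^ 208) := by
          linarith
      _ ≤ 1 + 1000 * (1 / B ^ 208) := by linarith
  refine htot.trans ?_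
  have : 1000 * (1 / B ^ 208) ≤ 1 / B ^ 207 := by
    calc 1000 * (1 / B ^ 208) ≤ B * (1 / B ^ 208) := mul_le_mul_of_nonneg_right h16 (by positivity)
      _ = 1 / B ^ 207 := by field_simp
  have h2 := mono 200 207 (by norm_num)
  linarith

lemma RNU_exp_big (B : ℝ) (hB : 6400 ≤ B) : B ^ 40 ≤ Real.exp B := by
  have h1 : B / 80 ≤ Real.exp (B / 80) := (lt_of_lt_of_le (by linarith) (Real.add_one_le_exp (B / 80))).le
  have h2 : B ≤ Real.exp (B / 40) := by
    have h3 : (B / 80) ^ 2 ≤ (Real.exp (B / 80)) ^ 2 := pow_le_pow_left₀ (by linarith) h1 2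
    have h4 : (Real.exp (B / 80)) ^ 2 = Real.exp (B / 40) := by
      rw [← Real.exp_nat_mul]; congr 1; push_cast; ring
    rw [h4] at h3
    refine le_trans ?_ h3
    nlinarith
  calc B ^ 40 ≤ (Real.exp (B / 40)) ^ 40 := pow_le_pow_left₀ (by linarith) h2 40
    _ = Real.exp B := by rw [← Real.exp_nat_mul]; congr 1; push_cast; ring

lemma RNU_final (b : ℕ) (B : ℝ) (hbB : B = (b : ℝ)) (hB : 2 ^ 52 ≤ B) (P : ℝ) (hP : 2 ^ 20 * B ^ 84 ≤ P)
    (ε : ℝ) (hε0 : 0 ≤ ε) (hε : ε ≤ 1 / 100) :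
    2 + (2 : ℝ) ^ (b + 4) * B ^ 40 * Real.exp (P * (2 * (1 / (8 * B ^ 42)) ^ 2 * ε ^ 2 * B ^ 2 + 1 / B ^ 200)) <
    Real.exp (P * (1 / (8 * B ^ 42)) * (1 / B ^ 40) / 2) := by
  have hBpos : 0 < B := lt_of_lt_of_le (by norm_num) hB
  have hB1 : 1 ≤ B := le_trans (by norm_num) hB
  have hB6400 : 6400 ≤ B := le_trans (by norm_num) hB
  set N : ℝ := P / B ^ 82 with hN
  have hPN : P = N * B ^ 82 := by rw [hN]; field_simp
  have hNbig : 2 ^ 20 * B ^ 2 ≤ N := by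
    rw [hN, le_div_iff₀ (by positivity)]
    calc 2 ^ 20 * B ^ 2 * B ^ 82 = 2 ^ 20 * B ^ 84 := by ring
      _ ≤ P := hP
  have hN0 : 0 ≤ N := le_trans (by positivity) hNbig
  have hexpR : P * (1 / (8 * B ^ 42)) * (1 / B ^ 40) / 2 = N / 16 := by
    rw [hPN]; field_simp; ring
  have hε2 : ε ^ 2 ≤ 1 / 10000 := by
    calc ε ^ 2 ≤ (1 / 100) ^ 2 := pow_le_pow_left₀ hε0 hε 2
      _ = 1 / 10000 := by norm_num
  have hexpL : P * (2 * (1 / (8 * B ^ 42)) ^ 2 * ε ^ 2 * B ^ 2 + 1 / B ^ 200) ≤ N / 64 := by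
    have e : P * (2 * (1 / (8 * B ^ 42)) ^ 2 * ε ^ 2 * B ^ 2 + 1 / B ^ 200) =
        N * (ε ^ 2 / 32 + 1 / B ^ 118) := by
      rw [hPN]; field_simp; ring
    rw [e]
    have h118 : 1 / B ^ 118 ≤ 1 / 6400 := by
      apply one_div_le_one_div_of_le (by norm_num)
      calc (6400 : ℝ) ≤ B := hB6400
        _ = B ^ 1 := (pow_one B).symm
        _ ≤ B ^ 118 := pow_le_pow_right₀ hB1 (by norm_num)
    have h : ε ^ 2 / 32 + 1 / B ^ 118 ≤ 1 / 64 := by
      linarith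
    calc N * (ε ^ 2 / 32 + 1 / B ^ 118) ≤ N * (1 / 64) := mul_le_mul_of_nonneg_left h hN0
      _ = N / 64 := by ring
  rw [hexpR]
  have hbexp : (2 : ℝ) ^ (b + 4) ≤ 16 * Real.exp B := by
    rw [pow_add]
    have h2 : (2 : ℝ) ^ b ≤ Real.exp B := by
      have h3 : (2 : ℝ) ≤ Real.exp 1 := by
        have := Real.add_one_le_exp (1 : ℝ)
        linarith
      calc (2 : ℝ) ^ b ≤ (Real.exp 1) ^ b := pow_le_pow_left₀ (by norm_num) h3 b
        _ = Real.exp B := by rw [← Real.exp_nat_mul, mul_one, hbB]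
    linarith [h2]
  have h40 := RNU_exp_big B hB6400
  have hEB : 0 < Real.exp B := Real.exp_pos B
  have hprod : (2 : ℝ) ^ (b + 4) * B ^ 40 ≤ 16 * Real.exp B * Real.exp B := by
    apply mul_le_mul hbexp h40 (by positivity) (by positivity)
  have hE1 : 1 ≤ Real.exp (N / 64) := Real.one_le_exp (by positivity)
  have hE1B : 17 < Real.exp B := by
    have := Real.add_one_le_exp B
    linarith
  have hlhs : 2 + (2 : ℝ) ^ (b + 4) * B ^ 40 *
      Real.exp (P * (2 * (1 / (8 * B ^ 42)) ^ 2 * ε ^ 2 * B ^ 2 + 1 / B ^ 200)) ≤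
      (2 + 16 * Real.exp B * Real.exp B) * Real.exp (N / 64) := by
    have h5 : Real.exp (P * (2 * (1 / (8 * B ^ 42)) ^ 2 * ε ^ 2 * B ^ 2 + 1 / B ^ 200)) ≤ Real.exp (N / 64) :=
      Real.exp_le_exp.mpr hexpL
    have h6 : (2 : ℝ) ^ (b + 4) * B ^ 40 *
        Real.exp (P * (2 * (1 / (8 * B ^ 42)) ^ 2 * ε ^ 2 * B ^ 2 + 1 / B ^ 200)) ≤
        (16 * Real.exp B * Real.exp B) * Real.exp (N / 64) :=
      mul_le_mul hprod h5 (Real.exp_pos _).le (by positivity)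
    calc _ ≤ 2 * Real.exp (N / 64) + (16 * Real.exp B * Real.exp B) * Real.exp (N / 64) := by linarith
      _ = _ := by ring
  refine lt_of_le_of_lt hlhs ?_
  have h7 : 2 + 16 * Real.exp B * Real.exp B < Real.exp B * Real.exp B * Real.exp B := by
    nlinarith [mul_pos hEB hEB, mul_pos (mul_pos hEB hEB) hEB]
  have h8 : Real.exp B * Real.exp B * Real.exp B = Real.exp (3 * B) := by
    rw [← Real.exp_add, ← Real.exp_add]; congr 1; ring
  rw [h8] at h7
  calc (2 + 16 * Real.exp B * Real.exp B) * Real.exp (N / 64)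
      < Real.exp (3 * B) * Real.exp (N / 64) := mul_lt_mul_of_pos_right h7 (Real.exp_pos _)
    _ = Real.exp (3 * B + N / 64) := by rw [Real.exp_add]
    _ ≤ Real.exp (N / 16) := by
        apply Real.exp_le_exp.mpr
        nlinarith

theorem RNU : RNU_stmt := by
  refine ⟨2 ^ 52, by norm_num, fun b hb => ?_⟩
  have hbr : (2 : ℝ) ^ 52 ≤ (b : ℝ) := by exact_mod_cast hb
  have hb1 : 1 ≤ b := le_trans (by norm_num) hb
  obtain ⟨hlow, hup, hm⟩ := RNU_pow_bounds b hb1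
  have hBpos : 0 < (b : ℝ) := lt_of_lt_of_le (by norm_num) hbr
  have hB1 : 1 ≤ (b : ℝ) := le_trans (by norm_num) hbr
  have hBbig : (1000000 : ℝ) ≤ (b : ℝ) := le_trans (by norm_num) hbr
  refine ⟨?_, ?_, hup, ?_, ?_, ?_⟩
  · rw [div_le_iff₀ (by positivity)]
    nlinarith
  · have h1 : (1 + 8 / (b : ℝ) ^ 300) ≤ Real.exp (8 / (b : ℝ) ^ 300) := by
      have := Real.add_one_le_exp (8 / (b : ℝ) ^ 300)
      linarith
    calc (1 + 8 / (b : ℝ) ^ 300) ^ mm b ≤ (Real.exp (8 / (b : ℝ) ^ 300)) ^ mm b :=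
          pow_le_pow_left₀ (by positivity) h1 _
      _ = Real.exp ((mm b : ℝ) * (8 / (b : ℝ) ^ 300)) := by rw [← Real.exp_nat_mul]
      _ ≤ Real.exp (1 / 2) := by
          apply Real.exp_le_exp.mpr
          calc (mm b : ℝ) * (8 / (b : ℝ) ^ 300) ≤ 104 * (b : ℝ) * (8 / (b : ℝ) ^ 300) :=
                mul_le_mul_of_nonneg_right hm (by positivity)
            _ = 832 / (b : ℝ) ^ 299 := by field_simp; ring
            _ ≤ 832 / 1000000 := by
                apply div_le_div_of_nonneg_left (by norm_num) (by norm_num)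
                calc (1000000 : ℝ) ≤ (b : ℝ) := hBbig
                  _ = (b : ℝ) ^ 1 := (pow_one _).symm
                  _ ≤ (b : ℝ) ^ 299 := pow_le_pow_right₀ hB1 (by norm_num)
            _ ≤ 1 / 2 := by norm_num
      _ ≤ 2 := by
          have h := Real.exp_one_lt_d9
          have h2 : Real.exp (1 / 2) ^ 2 = Real.exp 1 := by
            rw [← Real.exp_nat_mul]; congr 1; norm_num
          have h3 : 0 < Real.exp (1 / 2) := Real.exp_pos _
          nlinarith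
  · have h2b : (b : ℝ) ^ 2 ≤ (2 : ℝ) ^ b := by
      have : b ^ 2 ≤ 2 ^ b := by
        have h4 : 4 ≤ b := le_trans (by norm_num) hb
        clear hbr hlow hup hm hBpos hB1 hBbig hb hb1
        induction b, h4 using Nat.le_induction with
        | base => norm_num
        | succ n hn ih =>
          rw [pow_succ 2 n]
          nlinarith
      exact_mod_cast this
    have hpow : (2 : ℝ) ^ (b + 2) = 4 * 2 ^ b := by rw [pow_add]; ring
    rw [hpow]
    nlinarith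
  · intro μ lam a β hβ hμ0 hμ hl0 hl ha0 ha
    exact RNU_step (b : ℝ) μ lam a β hbr hβ hμ0 hμ hl0 hl ha0 ha
  · intro ε hε0 hε
    exact RNU_final b (b : ℝ) rfl hbr _ hlow ε hε0 hε

end Pool.Agent.helper64.D2
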